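import Pool.Agent.W209.KT.Stm
import Pool.Agent.S17839

/-!
Khintchine type for divergence (project KT).
-/

set_option autoImplicit false

open Filter MeasureTheory

namespace Pool.Agent.W986.KT

open Pool.Agent.W209.KT

/-- the linear part of `pt A` -/
noncomputable def lin (A : Fin 2 → Fin 11 → ℝ) : (Fin 10 → ℝ) →ₗ[ℝ] (Fin 12 → ℝ) where
  toFun t := (Fin.append t (fun j : Fin 2 => ∑ l : Fin 10, A j l.succ * t l) : Fin (10 + 2) → ℝ)
  map_add' s t := by
    funext i
    revert i
    refine Fin.addCases (m := 10) (n := 2) (fun i => ?_) (fun j => ?_)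
    · simp only [Fin.append_left, Pi.add_apply]
    · simp only [Fin.append_right, Pi.add_apply, mul_add, Finset.sum_add_distrib]
  map_smul' c t := by
    funext i
    revert i
    refine Fin.addCases (m := 10) (n := 2) (fun i => ?_) (fun j => ?_)
    · simp only [Fin.append_left, Pi.smul_apply, RingHom.id_apply]
    · simp only [Fin.append_right, Pi.smul_apply, RingHom.id_apply, smul_eq_mul, Finset.mul_sum]
      exact Finset.sum_congr rfl fun l _ => by ring

theorem lin_inj (A : Fin 2 → Fin 11 → ℝ) : Function.Injective (lin A) := by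
  intro s t h
  funext i
  have h1 : (Fin.append s (fun j : Fin 2 => ∑ l : Fin 10, A j l.succ * s l) : Fin (10 + 2) → ℝ)
      (Fin.castAdd 2 i) =
      (Fin.append t (fun j : Fin 2 => ∑ l : Fin 10, A j l.succ * t l) : Fin (10 + 2) → ℝ)
      (Fin.castAdd 2 i) := congrFun h (Fin.castAdd 2 i)
  rwa [Fin.append_left, Fin.append_left] at h1

theorem pt_eq (A : Fin 2 → Fin 11 → ℝ) (t : Fin 10 → ℝ) (i : Fin 12) :
    pt A 0 i + lin A t i = pt A t i := by
  revert i
  refine Fin.addCases (m := 10) (n := 2) (fun i => ?_) (fun j => ?_)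
  · change (Fin.append (0 : Fin 10 → ℝ) (fun j : Fin 2 => aff A j 0) : Fin (10 + 2) → ℝ)
        (Fin.castAdd 2 i) +
      (Fin.append t (fun j : Fin 2 => ∑ l : Fin 10, A j l.succ * t l) : Fin (10 + 2) → ℝ)
        (Fin.castAdd 2 i) =
      (Fin.append t (fun j : Fin 2 => aff A j t) : Fin (10 + 2) → ℝ) (Fin.castAdd 2 i)
    rw [Fin.append_left, Fin.append_left, Fin.append_left, Pi.zero_apply, zero_add]
  · change (Fin.append (0 : Fin 10 → ℝ) (fun j : Fin 2 => aff A j 0) : Fin (10 + 2) → ℝ)
        (Fin.natAdd 10 j) +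
      (Fin.append t (fun j : Fin 2 => ∑ l : Fin 10, A j l.succ * t l) : Fin (10 + 2) → ℝ)
        (Fin.natAdd 10 j) =
      (Fin.append t (fun j : Fin 2 => aff A j t) : Fin (10 + 2) → ℝ) (Fin.natAdd 10 j)
    rw [Fin.append_right, Fin.append_right, Fin.append_right]
    simp [aff]

theorem div : S_div := by
  intro A ψ h0 hanti hdiv
  have h := Pool.Agent.S17839.result 12 10 (by norm_num) (pt A 0) (lin A) (lin_inj A) ψ h0 hanti hdiv
  filter_upwards [h] with t ht
  refine ht.mono fun q hq i => ?_
  have := hq i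
  rw [pt_eq] at this
  exact this

end Pool.Agent.W986.KT
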